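import Pool.Agent.W188.MZ.All

/-!
# Moments of zeta and one line, in all intervals

Local version (in all intervals, with a margin `2 log T`) of the comparison of the `p`-th moment of zeta, `p > 1`,
with the sum over the points at which the value lies on one line (helper188, project GP).
-/

set_option autoImplicit false

open Complex MeasureTheory Set Filter Topology

namespace Pool.Agent.N397.OL

open Pool.Agent.W188.GP Pool.Agent.W188.QS Pool.Agent.W108.GPL

lemma ZZ_growth {t : ℝ} (ht : 1 ≤ t) : ZZ t ≤ 12 * t := by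
  have h1 := Pool.Agent.H388LH.zeta_growth (s := cp t) (by simp [cp]; norm_num) (by simpa [cp] using ht)
  have h2 : ‖cp t‖ ≤ |(cp t).re| + |(cp t).im| := Complex.norm_le_abs_re_add_abs_im _
  have h3 : (cp t).re = 1 / 2 := by simp [cp]
  have h4 : (cp t).im = t := by simp [cp]
  rw [h3, h4, abs_of_nonneg (by norm_num : (0 : ℝ) ≤ 1 / 2), abs_of_nonneg (by linarith)] at h2
  unfold ZZ
  linarith

/-- number of nodes -/
lemma card_nd' (h1 : StTau) (γ a b : ℝ) (ha : 100 ≤ a) (hab : a ≤ b) :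
    ((nd γ a b).card : ℝ) ≤ Real.log b / (2 * Real.pi) * (b - a) + 1 := by
  have h2 := vv_lip h1 a b b ha hab le_rfl
  have h3 : 0 ≤ Real.log b / (2 * Real.pi) * (b - a) :=
    mul_nonneg (div_nonneg (Real.log_nonneg (by linarith)) (by positivity)) (by linarith)
  unfold nd
  rw [Int.card_Ioc]
  have h6 : ((⌊vv b - γ⌋ - ⌊vv a - γ⌋ : ℤ) : ℝ) ≤ vv b - vv a + 1 := by
    push_cast
    have e1 := Int.floor_le (vv b - γ)
    have e2 := Int.lt_floor_add_one (vv a - γ)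
    linarith
  have h9 : (((⌊vv b - γ⌋ - ⌊vv a - γ⌋).toNat : ℕ) : ℤ) = max (⌊vv b - γ⌋ - ⌊vv a - γ⌋) 0 :=
    Int.toNat_eq_max _
  have h10 : (((⌊vv b - γ⌋ - ⌊vv a - γ⌋).toNat : ℕ) : ℝ) =
      max ((⌊vv b - γ⌋ - ⌊vv a - γ⌋ : ℤ) : ℝ) 0 := by
    have := congrArg (fun z : ℤ => (z : ℝ)) h9
    push_cast at this
    push_cast
    exact this
  rw [h10]
  exact max_le (by linarith) (by linarith)

lemma card_small (h1 : StTau) {T L : ℝ} (hT : 200 ≤ T) (hL4 : 4 ≤ L)
    (h16 : Real.log (16 * T) ≤ 2 * L) (hLT : 32 * L ≤ T) (γ : ℝ) :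
    ((nd γ (T / 2) (16 * T)).card : ℝ) ≤ T ^ 2 := by
  have h2 := card_nd' h1 γ (T / 2) (16 * T) (by linarith) (by linarith)
  have hpi := Real.pi_gt_three
  have h3 : Real.log (16 * T) / (2 * Real.pi) ≤ L := by
    rw [div_le_iff₀ (by positivity)]
    nlinarith
  have h4 : Real.log (16 * T) / (2 * Real.pi) * (16 * T - T / 2) ≤ L * (16 * T) := by
    apply mul_le_mul h3 (by linarith) (by linarith) (by linarith)
  nlinarith

/-- the local formula, truncated -/
theorem trunc (h1 : StTau) (h2 : StLocB) : ∃ C T₀ : ℝ, 1 ≤ C ∧ ∀ T γ a b a' b' t₀ : ℝ, T₀ ≤ T → T ≤ a → b ≤ 8 * T →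
    a' = a - 2 * Real.log T → b' = b + 2 * Real.log T →
    a < t₀ → t₀ ≤ b → (∀ n : ℤ, vv t₀ ≠ n + γ) →
    ZZ t₀ ≤ ‖(Real.sin (Real.pi * (vv t₀ - γ)) : ℂ) * ∑ n ∈ nd γ a' b',
      riemannZeta (cp (tau (n + γ))) * (Real.exp (-(tau (n + γ) - t₀) ^ 2) : ℂ) /
        ((n : ℂ) + γ - vv t₀)‖ +
      C * Real.log T / T * ∑ n ∈ nd γ a' b',
        ZZ (tau (n + γ)) * Real.exp (-(tau (n + γ) - t₀) ^ 2 / 2) + C := by
  obtain ⟨C1, T1, hloc⟩ := h2
  have hev : ∀ᶠ T : ℝ in atTop, 32 * Real.log T ≤ T := by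
    have h4 := (isLittleO_log_rpow_rpow_atTop 1 (by norm_num : (0 : ℝ) < 1)).bound
      (show (0 : ℝ) < (32 : ℝ)⁻¹ by positivity)
    filter_upwards [h4, eventually_ge_atTop 1] with T hT hT1
    rw [Real.rpow_one, Real.rpow_one, Real.norm_of_nonneg (Real.log_nonneg hT1),
      Real.norm_of_nonneg (by linarith)] at hT
    linarith
  obtain ⟨T2, hT2⟩ := eventually_atTop.1 hev
  set C : ℝ := |C1| + 1 with hCd
  have hC1 : C1 ≤ C := by
    have := le_abs_self C1
    linarith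
  have hC : 1 ≤ C := by
    have := abs_nonneg C1
    linarith
  refine ⟨C + 1000 + 200 * C, max (max T1 T2) (max 200 (Real.exp 4)), by linarith,
    fun T γ a b a' b' t₀ hT hTa hbT ha' hb' hat htb hne => ?_⟩
  have hTT1 : T1 ≤ T := le_trans (le_trans (le_max_left _ _) (le_max_left _ _)) hT
  have hTT2 : T2 ≤ T := le_trans (le_trans (le_max_right _ _) (le_max_left _ _)) hT
  have hT200 : 200 ≤ T := le_trans (le_trans (le_max_left _ _) (le_max_right _ _)) hT
  have hTe : Real.exp 4 ≤ T := le_trans (le_trans (le_max_right _ _) (le_max_right _ _)) hT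
  have hT0 : (0 : ℝ) < T := by linarith
  have hL4 : 4 ≤ Real.log T := (Real.le_log_iff_exp_le hT0).2 hTe
  have hLT := hT2 T hTT2
  set L := Real.log T with hL
  have h16 : Real.log (16 * T) ≤ 2 * L := by
    have e : 2 * L = Real.log (T ^ 2) := by rw [Real.log_pow, hL]; norm_num
    rw [e]
    apply Real.log_le_log (by linarith)
    nlinarith
  have hnd := h1.2.2.2.2.2.2.2.2.2.2.2.2
  set S := nd γ (T / 2) (16 * T) with hS
  set S' := nd γ a' b' with hS'
  have hsub : S' ⊆ S := by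
    intro n hn
    rw [hS', hnd] at hn
    rw [hS, hnd]
    constructor <;> linarith [hn.1, hn.2]
  have hmain := hloc T γ t₀ hTT1 (by linarith) (by linarith) hne
  rw [← hS] at hmain
  set sn : ℝ := Real.sin (Real.pi * (vv t₀ - γ)) with hsn
  set f : ℤ → ℂ := fun n => riemannZeta (cp (tau (n + γ))) *
    (Real.exp (-(tau (n + γ) - t₀) ^ 2) : ℂ) / ((n : ℂ) + γ - vv t₀) with hf
  set g : ℤ → ℝ := fun n => ZZ (tau (n + γ)) * Real.exp (-(tau (n + γ) - t₀) ^ 2 / 2) with hg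
  have hsplitf : ∑ n ∈ S, f n = ∑ n ∈ S', f n + ∑ n ∈ S \ S', f n := by
    rw [add_comm, Finset.sum_sdiff hsub]
  have hsplitg : ∑ n ∈ S, g n = ∑ n ∈ S', g n + ∑ n ∈ S \ S', g n := by
    rw [add_comm, Finset.sum_sdiff hsub]
  have hcard : ((S \ S').card : ℝ) ≤ T ^ 2 := by
    refine le_trans ?_ (card_small h1 hT200 hL4 h16 hLT γ)
    exact_mod_cast Finset.card_le_card Finset.sdiff_subset
  have hfar : ∀ n ∈ S \ S', 2 * L ≤ |tau (n + γ) - t₀| ∧ ZZ (tau (n + γ)) ≤ 192 * T := by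
    intro n hn
    rw [Finset.mem_sdiff, hS, hS', hnd, hnd] at hn
    obtain ⟨⟨k1, k2⟩, k3⟩ := hn
    constructor
    · by_cases h : a' < tau (n + γ)
      · have h4 : b' < tau (n + γ) := by
          by_contra h5
          exact k3 ⟨h, not_lt.1 h5⟩
        rw [abs_of_nonneg (by linarith)]
        linarith
      · rw [abs_of_nonpos (by linarith)]
        linarith
    · have := ZZ_growth (t := tau (n + γ)) (by linarith)
      linarith
  have hTL : T = Real.exp L := (Real.exp_log hT0).symm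
  have hexp : ∀ c x : ℝ, 2 * L ≤ |x| → 1 / 2 ≤ c → Real.exp (-(c * x ^ 2)) ≤ 1 / T ^ 4 := by
    intro c x hx hc
    have e1 : (2 * L) ^ 2 ≤ x ^ 2 := by
      rw [← sq_abs x]
      exact pow_le_pow_left₀ (by linarith) hx 2
    have e2 : 1 / T ^ 4 = Real.exp (-(4 * L)) := by
      rw [Real.exp_neg, one_div]
      congr 1
      rw [hTL, ← Real.exp_nat_mul]
      norm_num
    rw [e2]
    apply Real.exp_le_exp.2
    nlinarith
  -- tails
  have htf : ‖(sn : ℂ) * ∑ n ∈ S \ S', f n‖ ≤ 1000 := by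
    have e0 : ∀ n ∈ S \ S', ‖(sn : ℂ) * f n‖ ≤ 4 * (192 * T) * (1 / T ^ 4) := by
      intro n hn
      obtain ⟨k1, k2⟩ := hfar n hn
      have hd0 : (n : ℝ) + γ - vv t₀ ≠ 0 := fun h => hne n (by linarith)
      have e1 : ‖(sn : ℂ) * f n‖ = |sn| / |(n : ℝ) + γ - vv t₀| *
          (ZZ (tau (n + γ)) * Real.exp (-(tau (n + γ) - t₀) ^ 2)) := by
        simp only [hf]
        rw [norm_mul, norm_div, norm_mul, Complex.norm_real, Complex.norm_real, Real.norm_eq_abs,
          Real.norm_eq_abs, abs_of_pos (Real.exp_pos _)]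
        have e2 : ((n : ℂ) + γ - vv t₀) = (((n : ℝ) + γ - vv t₀ : ℝ) : ℂ) := by push_cast; ring
        rw [e2, Complex.norm_real, Real.norm_eq_abs]
        unfold ZZ
        field_simp
      have e3 : |sn| / |(n : ℝ) + γ - vv t₀| ≤ 4 := by
        rw [div_le_iff₀ (abs_pos.2 hd0)]
        have e4 := Pool.Agent.W91.GP.sin_bd (vv t₀ - γ) n
        have e5 : (n : ℝ) - (vv t₀ - γ) = n + γ - vv t₀ := by ring
        rw [e5, ← hsn] at e4
        have e6 := Real.pi_le_four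
        have e7 := abs_nonneg ((n : ℝ) + γ - vv t₀)
        nlinarith
      have e8 := hexp 1 (tau (n + γ) - t₀) k1 (by norm_num)
      rw [one_mul] at e8
      rw [e1, mul_assoc 4]
      apply mul_le_mul e3 _ (mul_nonneg (norm_nonneg _) (Real.exp_pos _).le) (by norm_num)
      exact mul_le_mul k2 e8 (Real.exp_pos _).le (by linarith)
    rw [Finset.mul_sum]
    refine (norm_sum_le _ _).trans ((Finset.sum_le_sum e0).trans ?_)
    rw [Finset.sum_const, nsmul_eq_mul]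
    have e9 : ((S \ S').card : ℝ) * (4 * (192 * T) * (1 / T ^ 4)) ≤ T ^ 2 * (4 * (192 * T) * (1 / T ^ 4)) :=
      mul_le_mul_of_nonneg_right hcard (by positivity)
    refine e9.trans ?_
    have e10 : T ^ 2 * (4 * (192 * T) * (1 / T ^ 4)) = 768 / T := by
      field_simp
      ring
    rw [e10, div_le_iff₀ hT0]
    nlinarith
  have htg : C * L / T * ∑ n ∈ S \ S', g n ≤ 200 * C := by
    have e0 : ∀ n ∈ S \ S', g n ≤ (192 * T) * (1 / T ^ 4) := by
      intro n hn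
      obtain ⟨k1, k2⟩ := hfar n hn
      have e8 := hexp (1 / 2) (tau (n + γ) - t₀) k1 le_rfl
      have e9 : -(tau ((n : ℝ) + γ) - t₀) ^ 2 / 2 = -(1 / 2 * (tau ((n : ℝ) + γ) - t₀) ^ 2) := by ring
      simp only [hg]
      rw [e9]
      exact mul_le_mul k2 e8 (Real.exp_pos _).le (by linarith)
    have e1 : ∑ n ∈ S \ S', g n ≤ T ^ 2 * ((192 * T) * (1 / T ^ 4)) := by
      refine (Finset.sum_le_sum e0).trans ?_
      rw [Finset.sum_const, nsmul_eq_mul]
      exact mul_le_mul_of_nonneg_right hcard (by positivity)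
    have e2 : T ^ 2 * ((192 * T) * (1 / T ^ 4)) = 192 / T := by
      field_simp
    rw [e2] at e1
    have e3 : C * L / T * ∑ n ∈ S \ S', g n ≤ C * L / T * (192 / T) :=
      mul_le_mul_of_nonneg_left e1 (by positivity)
    refine e3.trans ?_
    have e4 : C * L / T * (192 / T) = C * (192 * (L / T) * (1 / T)) := by
      field_simp
    rw [e4, mul_comm 200 C]
    apply mul_le_mul_of_nonneg_left _ (by linarith)
    have e5 : L / T ≤ 1 := by
      rw [div_le_one hT0]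
      linarith
    have e6 : 1 / T ≤ 1 := by
      rw [div_le_one hT0]
      linarith
    have e7 : 0 ≤ L / T := by positivity
    have e8 : 0 ≤ 1 / T := by positivity
    nlinarith
  have hg0 : 0 ≤ ∑ n ∈ S', g n := Finset.sum_nonneg fun n _ => mul_nonneg (norm_nonneg _) (Real.exp_pos _).le
  have hg1 : 0 ≤ ∑ n ∈ S, g n := Finset.sum_nonneg fun n _ => mul_nonneg (norm_nonneg _) (Real.exp_pos _).le
  have e1 : C1 * L / T * ∑ n ∈ S, g n ≤ C * L / T * ∑ n ∈ S, g n := by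
    apply mul_le_mul_of_nonneg_right _ hg1
    exact div_le_div_of_nonneg_right (mul_le_mul_of_nonneg_right hC1 (by linarith)) hT0.le
  have e2 : ‖(sn : ℂ) * ∑ n ∈ S, f n‖ ≤ ‖(sn : ℂ) * ∑ n ∈ S', f n‖ + ‖(sn : ℂ) * ∑ n ∈ S \ S', f n‖ := by
    rw [hsplitf, mul_add]
    exact norm_add_le _ _
  have e3 : C * L / T * ∑ n ∈ S, g n = C * L / T * ∑ n ∈ S', g n + C * L / T * ∑ n ∈ S \ S', g n := by
    rw [hsplitg, mul_add]
  have e4 : C * L / T * ∑ n ∈ S', g n ≤ (C + 1000 + 200 * C) * L / T * ∑ n ∈ S', g n := by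
    apply mul_le_mul_of_nonneg_right _ hg0
    exact div_le_div_of_nonneg_right (mul_le_mul_of_nonneg_right (by linarith) (by linarith)) hT0.le
  calc ZZ t₀ ≤ ‖(sn : ℂ) * ∑ n ∈ S, f n‖ + C1 * L / T * ∑ n ∈ S, g n + C1 := hmain
    _ ≤ _ := by linarith

/-- the main estimate -/
theorem stepL (h1 : StTau) (p h C K0 T L γ x a b a' b' : ℝ) (hp : 1 < p) (hC : 1 ≤ C)
    (hK0 : 0 < K0) (hT : 200 ≤ T) (hL : L = Real.log T) (hL5 : 5 ≤ L)
    (hbig : C * (4 * K0) * L ^ 3 ≤ T) (hx0 : 0 < x) (hx1 : x < 1)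
    (hTa : T ≤ a) (hbT : b ≤ 8 * T) (ha' : T / 2 ≤ a') (hb' : b' ≤ 16 * T)
    (hks : ∀ (S : Finset ℤ) (j : ℤ), ∑ n ∈ S, 1 / (1 + ((n : ℝ) - j) ^ 2) ≤ K0)
    (hloc : ∀ t₀ : ℝ, a < t₀ → t₀ ≤ b → (∀ n : ℤ, vv t₀ ≠ n + γ) →
      ZZ t₀ ≤ ‖(Real.sin (Real.pi * (vv t₀ - γ)) : ℂ) * ∑ n ∈ nd γ a' b',
        riemannZeta (cp (tau (n + γ))) * (Real.exp (-(tau (n + γ) - t₀) ^ 2) : ℂ) /
          ((n : ℂ) + γ - vv t₀)‖ +
        C * Real.log T / T * ∑ n ∈ nd γ a' b',
          ZZ (tau (n + γ)) * Real.exp (-(tau (n + γ) - t₀) ^ 2 / 2) + C)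
    (hgau : ∀ (S S' : Finset ℤ) (a : ℤ → ℂ) (r r' : ℤ → ℝ),
      ∑ j ∈ S', ‖(Real.sin (Real.pi * x) : ℂ) *
        ∑ n ∈ S, a n * (Real.exp (-(r n - r' j) ^ 2) : ℂ) / ((n : ℂ) - j - x)‖ ^ p ≤
      h * ∑ n ∈ S, ‖a n‖ ^ p) :
    DD p (γ + x) a b ≤
      3 ^ p * ((h + 1) * DD p γ a' b' + C ^ p * ((nd (γ + x) a b).card : ℝ)) := by
  have hp0 : 0 < p := by linarith
  have hT0 : (0 : ℝ) < T := by linarith
  have hL0 : 0 < L := by linarith
  have hvt : ∀ y : ℝ, vv (tau y) = y := h1.2.2.2.2.2.2.1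
  have hnd : ∀ γ a b : ℝ, ∀ n : ℤ, n ∈ nd γ a b ↔ a < tau (n + γ) ∧ tau (n + γ) ≤ b :=
    h1.2.2.2.2.2.2.2.2.2.2.2.2
  set S := nd γ a' b' with hS
  set J := nd (γ + x) a b with hJ
  have hDS : DD p γ a' b' = ∑ n ∈ S, ZZ (tau (n + γ)) ^ p := rfl
  have hDJ : DD p (γ + x) a b = ∑ j ∈ J, ZZ (tau (j + (γ + x))) ^ p := by
    show ∑ j ∈ J, ZZ (tau ((j : ℝ) + (γ + x))) ^ p = _
    rfl
  rw [hDJ, hDS]
  set A : ℤ → ℝ := fun j => ‖(Real.sin (Real.pi * x) : ℂ) *
    ∑ n ∈ S, riemannZeta (cp (tau (n + γ))) *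
      (Real.exp (-(tau (n + γ) - tau (j + (γ + x))) ^ 2) : ℂ) / ((n : ℂ) - j - x)‖ with hA
  set κ : ℤ → ℤ → ℝ := fun j n =>
    if j ∈ J ∧ n ∈ S then Real.exp (-(tau (n + γ) - tau (j + (γ + x))) ^ 2 / 2) else 0 with hκ
  set B : ℤ → ℝ := fun j => C * L / T * ∑ n ∈ S, κ j n * ZZ (tau (n + γ)) with hB
  have hκ0 : ∀ j n, 0 ≤ κ j n := by
    intro j n
    simp only [hκ]
    split_ifs
    · exact (Real.exp_pos _).le
    · exact le_rfl
  have hB0 : ∀ j, 0 ≤ B j := fun j => mul_nonneg (by positivity)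
    (Finset.sum_nonneg fun n _ => mul_nonneg (hκ0 j n) (ZZ_nonneg _))
  -- pointwise
  have hpt : ∀ j ∈ J, ZZ (tau (j + (γ + x))) ≤ A j + B j + C := by
    intro j hj
    obtain ⟨hj1, hj2⟩ := (hnd (γ + x) a b j).1 hj
    have hv : vv (tau ((j : ℝ) + (γ + x))) = j + (γ + x) := hvt _
    have hne : ∀ n : ℤ, vv (tau ((j : ℝ) + (γ + x))) ≠ n + γ := by
      intro n hn
      rw [hv] at hn
      have h2 : x = ((n - j : ℤ) : ℝ) := by
        push_cast
        linarith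
      rw [h2] at hx0 hx1
      have h3 : (0 : ℤ) < n - j := by exact_mod_cast hx0
      have h4 : n - j < (1 : ℤ) := by exact_mod_cast hx1
      omega
    have h2 := hloc _ hj1 hj2 hne
    rw [hv] at h2
    have h3 : ‖(Real.sin (Real.pi * ((j : ℝ) + (γ + x) - γ)) : ℂ) * ∑ n ∈ S,
        riemannZeta (cp (tau (n + γ))) *
          (Real.exp (-(tau (n + γ) - tau ((j : ℝ) + (γ + x))) ^ 2) : ℂ) /
          ((n : ℂ) + γ - (((j : ℝ) + (γ + x) : ℝ) : ℂ))‖ = A j := by
      simp only [hA]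
      rw [norm_mul, norm_mul]
      congr 1
      · rw [Complex.norm_real, Complex.norm_real, Real.norm_eq_abs, Real.norm_eq_abs,
          show (j : ℝ) + (γ + x) - γ = (j : ℝ) + x by ring, abs_sin_shift]
      · congr 1
        refine Finset.sum_congr rfl fun n _ => ?_
        congr 1
        push_cast
        ring
    have h4 : C * Real.log T / T * ∑ n ∈ S,
        ZZ (tau (n + γ)) * Real.exp (-(tau (n + γ) - tau ((j : ℝ) + (γ + x))) ^ 2 / 2) = B j := by
      simp only [hB]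
      rw [← hL]
      congr 1
      refine Finset.sum_congr rfl fun n hn => ?_
      simp only [hκ]
      rw [if_pos ⟨hj, hn⟩, mul_comm]
    rw [h3, h4] at h2
    exact h2
  -- kernel bound
  have hker : ∀ j n, κ j n ≤ 4 * L ^ 2 * (1 / (1 + ((n : ℝ) - j) ^ 2)) := by
    intro j n
    simp only [hκ]
    split_ifs with hjn
    · obtain ⟨hj1, hj2⟩ := (hnd (γ + x) a b j).1 hjn.1
      obtain ⟨hn1, hn2⟩ := (hnd γ a' b' n).1 hjn.2
      refine ker_bound L x _ n j (by linarith) hx0.le hx1.le ?_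
      have h2 := vv_lip_abs h1 (tau ((j : ℝ) + (γ + x))) (tau ((n : ℝ) + γ)) (16 * T)
        (by linarith) (by linarith) (by linarith) (by linarith)
      rw [hvt, hvt] at h2
      have h3 : (n : ℝ) + γ - ((j : ℝ) + (γ + x)) = (n : ℝ) - j - x := by ring
      rw [h3] at h2
      refine h2.trans (mul_le_mul_of_nonneg_right ?_ (abs_nonneg _))
      have hpi : (3 : ℝ) < Real.pi := Real.pi_gt_three
      rw [div_le_iff₀ (by positivity), Real.log_mul (by norm_num) hT0.ne', ← hL]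
      have h4 : Real.log 16 ≤ 15 := by
        have := Real.log_le_sub_one_of_pos (show (0 : ℝ) < 16 by norm_num)
        linarith
      nlinarith
    · positivity
  have hK : 0 < 4 * L ^ 2 * K0 := by positivity
  have hrow : ∀ j ∈ J, ∑ n ∈ S, κ j n ≤ 4 * L ^ 2 * K0 := by
    intro j _
    calc ∑ n ∈ S, κ j n ≤ ∑ n ∈ S, 4 * L ^ 2 * (1 / (1 + ((n : ℝ) - j) ^ 2)) :=
          Finset.sum_le_sum fun n _ => hker j n
      _ = 4 * L ^ 2 * ∑ n ∈ S, 1 / (1 + ((n : ℝ) - j) ^ 2) := by rw [Finset.mul_sum]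
      _ ≤ _ := mul_le_mul_of_nonneg_left (hks S j) (by positivity)
  have hcolm : ∀ n ∈ S, ∑ j ∈ J, κ j n ≤ 4 * L ^ 2 * K0 := by
    intro n _
    calc ∑ j ∈ J, κ j n ≤ ∑ j ∈ J, 4 * L ^ 2 * (1 / (1 + ((j : ℝ) - n) ^ 2)) := by
          refine Finset.sum_le_sum fun j _ => (hker j n).trans (le_of_eq ?_)
          congr 3
          ring
      _ = 4 * L ^ 2 * ∑ j ∈ J, 1 / (1 + ((j : ℝ) - n) ^ 2) := by rw [Finset.mul_sum]
      _ ≤ _ := mul_le_mul_of_nonneg_left (hks J n) (by positivity)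
  have hsch := schur p hp.le S J κ hκ0 (fun n => ZZ (tau (n + γ))) (fun n => ZZ_nonneg _)
    (4 * L ^ 2 * K0) hK hrow hcolm
  have hsumB : ∑ j ∈ J, B j ^ p ≤ ∑ n ∈ S, ZZ (tau (n + γ)) ^ p := by
    have hc0 : 0 ≤ C * L / T := by positivity
    have h2 : ∀ j, B j ^ p = (C * L / T) ^ p * (∑ n ∈ S, κ j n * ZZ (tau (n + γ))) ^ p := by
      intro j
      simp only [hB]
      exact Real.mul_rpow hc0 (Finset.sum_nonneg fun n _ => mul_nonneg (hκ0 j n) (ZZ_nonneg _))
    rw [Finset.sum_congr rfl fun j _ => h2 j, ← Finset.mul_sum]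
    calc (C * L / T) ^ p * ∑ j ∈ J, (∑ n ∈ S, κ j n * ZZ (tau (n + γ))) ^ p ≤
        (C * L / T) ^ p * ((4 * L ^ 2 * K0) ^ p * ∑ n ∈ S, ZZ (tau (n + γ)) ^ p) :=
          mul_le_mul_of_nonneg_left hsch (Real.rpow_nonneg hc0 _)
      _ = (C * L / T * (4 * L ^ 2 * K0)) ^ p * ∑ n ∈ S, ZZ (tau (n + γ)) ^ p := by
          rw [Real.mul_rpow hc0 hK.le]
          ring
      _ ≤ 1 * ∑ n ∈ S, ZZ (tau (n + γ)) ^ p := by
          refine mul_le_mul_of_nonneg_right ?_
            (Finset.sum_nonneg fun n _ => Real.rpow_nonneg (ZZ_nonneg _) p)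
          refine Real.rpow_le_one (by positivity) ?_ hp0.le
          rw [div_mul_eq_mul_div, div_le_one hT0]
          calc C * L * (4 * L ^ 2 * K0) = C * (4 * K0) * L ^ 3 := by ring
            _ ≤ T := hbig
      _ = _ := one_mul _
  have hsumA : ∑ j ∈ J, A j ^ p ≤ h * ∑ n ∈ S, ZZ (tau (n + γ)) ^ p :=
    hgau S J (fun n => riemannZeta (cp (tau (n + γ)))) (fun n => tau (n + γ))
      (fun j => tau (j + (γ + x)))
  have hsumC : ∑ j ∈ J, C ^ p ≤ C ^ p * (J.card : ℝ) := by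
    rw [Finset.sum_const, nsmul_eq_mul, mul_comm]
  calc ∑ j ∈ J, ZZ (tau (j + (γ + x))) ^ p ≤ ∑ j ∈ J, 3 ^ p * (A j ^ p + B j ^ p + C ^ p) := by
        refine Finset.sum_le_sum fun j hj => ?_
        refine (Real.rpow_le_rpow (ZZ_nonneg _) (hpt j hj) hp0.le).trans ?_
        exact three p _ _ _ hp0 (norm_nonneg _) (hB0 j) (by linarith)
    _ = 3 ^ p * (∑ j ∈ J, A j ^ p + ∑ j ∈ J, B j ^ p + ∑ j ∈ J, C ^ p) := by
        rw [← Finset.mul_sum, Finset.sum_add_distrib, Finset.sum_add_distrib]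
    _ ≤ 3 ^ p * ((h + 1) * ∑ n ∈ S, ZZ (tau (n + γ)) ^ p + C ^ p * (J.card : ℝ)) := by
        refine mul_le_mul_of_nonneg_left ?_ (by positivity)
        linarith

/-- from one line to another line, in all intervals -/
theorem llL {p : ℝ} (hp : 1 < p) : ∃ C T₀ : ℝ, 0 < C ∧ ∀ T γ γ' a b : ℝ, T₀ ≤ T → T ≤ a → a ≤ b → b ≤ 8 * T →
    DD p γ' a b ≤ C * (DD p γ (a - 2 * Real.log T) (b + 2 * Real.log T) + ((b - a) * Real.log T + 1)) := by
  obtain ⟨C, T1, hC, hloc⟩ := trunc a_tau a_locb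
  obtain ⟨h, hh, hgau⟩ := a_gau p hp
  obtain ⟨K0, hK0, hks⟩ := ksum
  have hlo : ∀ᶠ T : ℝ in atTop, C * (4 * K0) * Real.log T ^ 3 ≤ T := by
    have h4 := (Real.isLittleO_pow_log_id_atTop (n := 3)).bound
      (show (0 : ℝ) < (C * (4 * K0))⁻¹ by positivity)
    filter_upwards [h4, eventually_ge_atTop 1] with T hT hT1
    have h5 : 0 ≤ Real.log T ^ 3 := pow_nonneg (Real.log_nonneg hT1) 3
    rw [Real.norm_of_nonneg h5] at hT
    have h6 : ‖(id T : ℝ)‖ = T := Real.norm_of_nonneg (by simpa using (by linarith : (0 : ℝ) ≤ T))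
    rw [h6] at hT
    have h7 := mul_le_mul_of_nonneg_left hT (show (0 : ℝ) ≤ C * (4 * K0) by positivity)
    have h8 : C * (4 * K0) ≠ 0 := by positivity
    rwa [mul_inv_cancel_left₀ h8] at h7
  have hlo2 : ∀ᶠ T : ℝ in atTop, 32 * Real.log T ≤ T := by
    have h4 := (isLittleO_log_rpow_rpow_atTop 1 (by norm_num : (0 : ℝ) < 1)).bound
      (show (0 : ℝ) < (32 : ℝ)⁻¹ by positivity)
    filter_upwards [h4, eventually_ge_atTop 1] with T hT hT1
    rw [Real.rpow_one, Real.rpow_one, Real.norm_of_nonneg (Real.log_nonneg hT1),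
      Real.norm_of_nonneg (by linarith)] at hT
    linarith
  obtain ⟨T2, hT2⟩ := eventually_atTop.1 (hlo.and hlo2)
  refine ⟨3 ^ p * ((h + 1) + C ^ p) + 1, max (max T1 T2) (max 200 (Real.exp 5)), by positivity,
    fun T γ γ' a b hT hTa hab hbT => ?_⟩
  have hTT1 : T1 ≤ T := le_trans (le_trans (le_max_left _ _) (le_max_left _ _)) hT
  have hTT2 : T2 ≤ T := le_trans (le_trans (le_max_right _ _) (le_max_left _ _)) hT
  have hT200 : 200 ≤ T := le_trans (le_trans (le_max_left _ _) (le_max_right _ _)) hT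
  have hTe : Real.exp 5 ≤ T := le_trans (le_trans (le_max_right _ _) (le_max_right _ _)) hT
  have hT0 : (0 : ℝ) < T := by linarith
  have hL5 : 5 ≤ Real.log T := (Real.le_log_iff_exp_le hT0).2 hTe
  obtain ⟨hbig, h32⟩ := hT2 T hTT2
  have hD0 : 0 ≤ DD p γ (a - 2 * Real.log T) (b + 2 * Real.log T) := DD_nonneg _ _ _ _
  have hCp : 0 ≤ C ^ p := Real.rpow_nonneg (by linarith) _
  have h3p : (0 : ℝ) < 3 ^ p := by positivity
  have hE : 0 ≤ (b - a) * Real.log T + 1 := by nlinarith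
  -- reduction to a fractional shift
  set x : ℝ := Int.fract (γ' - γ) with hx
  have hγ' : γ' = (γ + x) + (⌊γ' - γ⌋ : ℤ) := by
    have := Int.fract_add_floor (γ' - γ)
    rw [← hx] at this
    linarith
  rw [hγ', DD_shift]
  have hx0 : 0 ≤ x := Int.fract_nonneg _
  have hx1 : x < 1 := Int.fract_lt_one _
  rcases hx0.eq_or_lt with h0 | h0
  · rw [← h0, add_zero]
    have hnd : ∀ γ a b : ℝ, ∀ n : ℤ, n ∈ nd γ a b ↔ a < tau (n + γ) ∧ tau (n + γ) ≤ b :=
      a_tau.2.2.2.2.2.2.2.2.2.2.2.2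
    have hsub : DD p γ a b ≤ DD p γ (a - 2 * Real.log T) (b + 2 * Real.log T) := by
      refine Finset.sum_le_sum_of_subset_of_nonneg ?_
        fun _ _ _ => Real.rpow_nonneg (ZZ_nonneg _) _
      intro n hn
      rw [hnd] at hn ⊢
      exact ⟨by linarith [hn.1], by linarith [hn.2]⟩
    have e1 : 0 ≤ 3 ^ p * ((h + 1) + C ^ p) := by positivity
    nlinarith [mul_nonneg e1 (add_nonneg hD0 hE)]
  · have hst := stepL a_tau p h C K0 T (Real.log T) γ x a b (a - 2 * Real.log T) (b + 2 * Real.log T)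
      hp hC hK0 hT200 rfl hL5 hbig h0 hx1 hTa hbT (by linarith) (by linarith) hks
      (fun t₀ h3 h4 h5 => hloc T γ a b _ _ t₀ hTT1 hTa hbT rfl rfl h3 h4 h5)
      (fun S S' a r r' => hgau x h0 hx1 S S' a r r')
    refine hst.trans ?_
    have hcd : ((nd (γ + x) a b).card : ℝ) ≤ (b - a) * Real.log T + 1 := by
      refine (card_nd' a_tau (γ + x) a b (by linarith) hab).trans ?_
      have hpi := Real.pi_gt_three
      have h8 : Real.log b ≤ 2 * Real.log T := by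
        have e : 2 * Real.log T = Real.log (T ^ 2) := by rw [Real.log_pow]; norm_num
        rw [e]
        apply Real.log_le_log (by linarith)
        nlinarith
      have h9 : Real.log b / (2 * Real.pi) ≤ Real.log T := by
        rw [div_le_iff₀ (by positivity)]
        nlinarith
      have h10 := mul_le_mul_of_nonneg_right h9 (by linarith : 0 ≤ b - a)
      linarith
    set D := DD p γ (a - 2 * Real.log T) (b + 2 * Real.log T) with hD
    set E := (b - a) * Real.log T + 1 with hEd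
    have e0 : C ^ p * ((nd (γ + x) a b).card : ℝ) ≤ C ^ p * E := mul_le_mul_of_nonneg_left hcd hCp
    have e1 : 0 ≤ C ^ p * D := by positivity
    have e2 : 0 ≤ (h + 1) * E := by positivity
    have e3 : (h + 1) * D + C ^ p * ((nd (γ + x) a b).card : ℝ) ≤
        ((h + 1) + C ^ p) * (D + E) := by nlinarith
    have e4 := mul_le_mul_of_nonneg_left e3 h3p.le
    nlinarith

/-- from one line to the integral, in all intervals -/
theorem finL {p : ℝ} (hp : 1 < p) : ∃ C T₀ : ℝ, 0 < C ∧ ∀ T γ a b : ℝ, T₀ ≤ T → T ≤ a → a ≤ b → b ≤ 8 * T →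
    Real.log T * (∫ t in a..b, ZZ t ^ p) ≤
      C * (DD p γ (a - 2 * Real.log T) (b + 2 * Real.log T) + ((b - a) * Real.log T + 1)) := by
  obtain ⟨C0, T1, hC0, hLL⟩ := llL hp
  obtain ⟨-, -, hlc, hl1, -, -, -, -, -, -, -, hlam, -⟩ := a_tau
  have hfc : Continuous fun t => ZZ t ^ p :=
    Pool.Agent.W933.GP.ZZ_cont.rpow_const fun _ => Or.inr (by linarith)
  have hf0 : ∀ t, 0 ≤ ZZ t ^ p := fun t => Real.rpow_nonneg (norm_nonneg _) _
  have hgc : Continuous fun t => ZZ t ^ p * lamE t := hfc.mul hlc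
  have hpi := Real.pi_pos
  have hev : ∀ᶠ T : ℝ in atTop, 200 ≤ T ∧ T1 ≤ T ∧ (2 * (Real.log (2 * Real.pi) + 1) ≤ Real.log T) :=
    (eventually_ge_atTop 200).and ((eventually_ge_atTop T1).and
      (Real.tendsto_log_atTop.eventually_ge_atTop _))
  obtain ⟨T0, hT0⟩ := eventually_atTop.1 hev
  refine ⟨4 * Real.pi * C0, T0, by positivity, fun T γ a b hT hTa hab hbT => ?_⟩
  obtain ⟨hT200, hTT1, hlog⟩ := hT0 T hT
  have hT00 : 0 < T := by linarith
  have hlow : ∀ t, T ≤ t → Real.log T ≤ 2 * lamE t := by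
    intro t ht
    have h50 := (Pool.Agent.W338.QS.qs_line.1 t (by linarith)).2.1
    have h5 := (abs_le.1 h50).1
    rw [(hlam t (by linarith)).1]
    have h6 : Real.log (t / (2 * Real.pi)) = Real.log t - Real.log (2 * Real.pi) :=
      Real.log_div (by linarith) (by positivity)
    have h7 : Real.log T ≤ Real.log t := Real.log_le_log hT00 ht
    have h8 : 14 / t ≤ 1 := by
      rw [div_le_one (by linarith)]
      linarith
    linarith
  have hint : ∀ a b : ℝ, IntervalIntegrable (fun t => ZZ t ^ p) volume a b := fun a b =>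
    hfc.intervalIntegrable a b
  have hint' : ∀ a b : ℝ, IntervalIntegrable (fun t => ZZ t ^ p * lamE t) volume a b := fun a b =>
    hgc.intervalIntegrable a b
  obtain ⟨hi, he⟩ := Pool.Agent.W188.MZ.a_co (fun t => ZZ t ^ p) a b hfc (by linarith) hab
  set R := DD p γ (a - 2 * Real.log T) (b + 2 * Real.log T) + ((b - a) * Real.log T + 1) with hR
  have hle : ∫ γ' in (0 : ℝ)..1, DD p γ' a b ≤ C0 * R := by
    have h5 : ∫ γ' in (0 : ℝ)..1, DD p γ' a b ≤ ∫ _ in (0 : ℝ)..1, C0 * R :=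
      intervalIntegral.integral_mono_on zero_le_one hi intervalIntegrable_const
        fun γ' _ => hLL T γ γ' a b hTT1 hTa hab hbT
    simpa using h5
  have he' : ∫ γ' in (0 : ℝ)..1, DD p γ' a b = 1 / (2 * Real.pi) * ∫ t in a..b, ZZ t ^ p * lamE t := he
  have h6 : Real.log T * ∫ t in a..b, ZZ t ^ p ≤ 2 * ∫ t in a..b, ZZ t ^ p * lamE t := by
    rw [← intervalIntegral.integral_const_mul, ← intervalIntegral.integral_const_mul]
    apply intervalIntegral.integral_mono_on hab ((hint _ _).const_mul _) ((hint' _ _).const_mul _)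
    intro t ht
    have := hlow t (hTa.trans ht.1)
    nlinarith [hf0 t]
  have h7 : ∫ t in a..b, ZZ t ^ p * lamE t = 2 * Real.pi * ∫ γ' in (0 : ℝ)..1, DD p γ' a b := by
    rw [he']
    field_simp
  rw [h7] at h6
  have h8 := mul_le_mul_of_nonneg_left hle (by positivity : (0 : ℝ) ≤ 4 * Real.pi)
  linarith

end Pool.Agent.N397.OL
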