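import Pool.Agent.N397.OL.Loc
import Pool.Agent.W181.Mom.App4

/-!
# Lower bounds for the sums over one line in short windows, and the induction over dyadic windows
-/

set_option autoImplicit false

open Complex MeasureTheory Set Filter Topology

namespace Pool.Agent.N397.OL

open Pool.Agent.W188.GP Pool.Agent.W188.QS Pool.Agent.W108.GPL

/-- the lower bound for the moments in short windows -/
lemma momLow {p : ℝ} (hp : 2 ≤ p) : ∃ c B : ℝ, 0 < c ∧ 0 < B ∧ ∀ᶠ T : ℝ in atTop,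
    ∀ U : ℝ, Real.log T ^ B ≤ U → c * (U * Real.log U ^ (p ^ 2 / 4)) ≤ ∫ t in T..(T + U), ZZ t ^ p := by
  obtain ⟨c0, K, hc0, _, h⟩ := Pool.Agent.W181.Mom.uniform_real 1 one_pos (by
    rw [lt_div_iff₀ (Real.exp_pos 1)]
    have := Real.exp_one_lt_d9
    linarith)
  obtain ⟨B, hB, h2⟩ := h (p / 2) (by linarith) c0 (Or.inl le_rfl)
  have haF := Pool.Agent.H306R2.aF_pos (by linarith : 0 < p / 2)
  have hG : 0 < Real.Gamma ((p / 2) ^ 2 + 1) := Real.Gamma_pos_of_pos (by positivity)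
  refine ⟨Pool.Agent.H306R2.aF (p / 2) * (c0 * (1 ^ ((p / 2) ^ 2) / Real.Gamma ((p / 2) ^ 2 + 1))), B,
    by positivity, hB, ?_⟩
  filter_upwards [h2] with T h3 U hU
  have h5 := h3 U hU
  have e1 : (p / 2) ^ 2 = p ^ 2 / 4 := by ring
  have e2 : 2 * (p / 2) = p := by ring
  rw [e2] at h5
  rw [e1] at h5 ⊢
  exact h5

/-- comparison and lower bound for the sums over one line in short windows -/
theorem lowL {p : ℝ} (hp : 2 ≤ p) : ∃ c B T₀ : ℝ, 0 < c ∧ 0 < B ∧ ∀ T γ U : ℝ, T₀ ≤ T →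
    Real.log T ^ B ≤ U → U ≤ T →
    c * (Real.log T * ∫ t in (T + 2 * Real.log T)..(T + U - 2 * Real.log T), ZZ t ^ p) ≤ DD p γ T (T + U) ∧
    c * (U * Real.log T * Real.log U ^ (p ^ 2 / 4)) ≤ DD p γ T (T + U) := by
  obtain ⟨C, T1, hC, hfin⟩ := finL (p := p) (by linarith)
  obtain ⟨c0, B0, hc0, hB0, hlow⟩ := momLow hp
  obtain ⟨T2, hT2⟩ := eventually_atTop.1 hlow
  obtain ⟨q, hq⟩ : ∃ q : ℝ, q = p ^ 2 / 4 := ⟨_, rfl⟩
  have hq1 : 1 ≤ q := by rw [hq]; nlinarith
  rw [← hq] at hT2 ⊢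
  obtain ⟨B, hB⟩ : ∃ B : ℝ, B = B0 + 2 := ⟨_, rfl⟩
  obtain ⟨c1, hc1⟩ : ∃ c1 : ℝ, c1 = c0 / 2 * (1 / 2) ^ q := ⟨_, rfl⟩
  have hc10 : 0 < c1 := by rw [hc1]; positivity
  have hev : ∀ᶠ T : ℝ in atTop, 100 ≤ T ∧ T1 ≤ T ∧ T2 ≤ T ∧ (8 + 2 ^ B0) ≤ Real.log T ∧
      C / c1 ≤ Real.log (Real.log T) ∧ 32 * Real.log T ≤ T := by
    have h4 := (isLittleO_log_rpow_rpow_atTop 1 (by norm_num : (0 : ℝ) < 1)).bound
      (show (0 : ℝ) < (32 : ℝ)⁻¹ by positivity)
    have hll : Tendsto (fun T : ℝ => Real.log (Real.log T)) atTop atTop :=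
      Real.tendsto_log_atTop.comp Real.tendsto_log_atTop
    filter_upwards [h4, eventually_ge_atTop 100, eventually_ge_atTop T1, eventually_ge_atTop T2,
      Real.tendsto_log_atTop.eventually_ge_atTop (8 + 2 ^ B0 : ℝ),
      hll.eventually_ge_atTop (C / c1)] with T hT hT1 k1 k2 k3 k4
    rw [Real.rpow_one, Real.rpow_one, Real.norm_of_nonneg (Real.log_nonneg (by linarith)),
      Real.norm_of_nonneg (by linarith)] at hT
    exact ⟨hT1, k1, k2, k3, k4, by linarith⟩
  obtain ⟨T₀, hT₀⟩ := eventually_atTop.1 hev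
  refine ⟨min (1 / (2 * C)) (c1 / (2 * C)), B, T₀, by positivity, by rw [hB]; linarith, fun T γ U hT hU hUT => ?_⟩
  obtain ⟨hT100, hTT1, hTT2, hL8, hll, h32⟩ := hT₀ T hT
  have hT0 : 0 < T := by linarith
  have hLd : ∃ L : ℝ, L = Real.log T := ⟨_, rfl⟩
  obtain ⟨L, hL⟩ := hLd
  rw [← hL] at hU hL8 hll h32 ⊢
  have h2B : (1 : ℝ) ≤ 2 ^ B0 := Real.one_le_rpow (by norm_num) hB0.le
  have hL0 : 0 < L := by linarith
  have hL9 : 9 ≤ L := by linarith
  -- U is large
  have hUL : L ^ 2 * L ^ B0 ≤ U := by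
    refine le_trans (le_of_eq ?_) hU
    rw [hB, Real.rpow_add hL0, mul_comm, Real.rpow_two]
  have hLB : 1 ≤ L ^ B0 := Real.one_le_rpow (by linarith) hB0.le
  have hU2 : L ^ 2 ≤ U := by nlinarith
  have hU64 : 81 ≤ U := by nlinarith
  obtain ⟨U', hU'⟩ : ∃ U' : ℝ, U' = U - 4 * L := ⟨_, rfl⟩
  have hUU : U / 2 ≤ U' := by rw [hU']; nlinarith
  have hU'0 : 0 < U' := by linarith
  obtain ⟨T', hT'⟩ : ∃ T' : ℝ, T' = T + 2 * L := ⟨_, rfl⟩
  have hlogT' : Real.log T' ≤ 2 * L := by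
    have e : 2 * L = Real.log (T ^ 2) := by rw [Real.log_pow, hL]; norm_num
    rw [e]
    apply Real.log_le_log (by linarith)
    nlinarith
  have hlogT'0 : 0 ≤ Real.log T' := Real.log_nonneg (by linarith)
  have hcond : Real.log T' ^ B0 ≤ U' := by
    have e1 : Real.log T' ^ B0 ≤ (2 * L) ^ B0 := Real.rpow_le_rpow hlogT'0 hlogT' hB0.le
    rw [Real.mul_rpow (by norm_num) hL0.le] at e1
    have e2 : 2 ^ B0 * L ^ B0 ≤ L * L ^ B0 := mul_le_mul_of_nonneg_right (by linarith) (by linarith)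
    have e4 : L ≤ L ^ 2 / 2 := by nlinarith
    have e3 : L * L ^ B0 ≤ L ^ 2 / 2 * L ^ B0 := mul_le_mul_of_nonneg_right e4 (by linarith)
    linarith
  have hI := hT2 T' (by linarith) U' hcond
  -- the integral
  obtain ⟨I, hIdef⟩ : ∃ I : ℝ, I = ∫ t in T'..(T' + U'), ZZ t ^ p := ⟨_, rfl⟩
  have e1 : T + 2 * L = T' := hT'.symm
  have e2 : T + U - 2 * L = T' + U' := by rw [hT', hU']; ring
  rw [e1, e2, ← hIdef]
  rw [← hIdef] at hI
  have hlogU : Real.log U / 2 ≤ Real.log U' := by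
    have a1 : Real.log (U / 2) ≤ Real.log U' := Real.log_le_log (by linarith) hUU
    have a2 : Real.log U / 2 ≤ Real.log (U / 2) := by
      rw [Real.log_div (by linarith) (by norm_num)]
      have a3 : Real.log 2 ≤ Real.log U / 2 := by
        have a4 : Real.log (2 ^ 2) ≤ Real.log U := Real.log_le_log (by norm_num) (by linarith)
        rw [Real.log_pow] at a4
        push_cast at a4
        linarith
      linarith
    linarith
  have hlogUL : 2 * Real.log L ≤ Real.log U := by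
    have a1 : Real.log (L ^ 2) ≤ Real.log U := Real.log_le_log (by positivity) hU2
    rw [Real.log_pow] at a1
    push_cast at a1
    exact a1
  have hlogU1 : 1 ≤ Real.log U := by
    rw [Real.le_log_iff_exp_le (by linarith)]
    have := Real.exp_one_lt_d9
    linarith
  have hIge : c1 * (U * Real.log U ^ q) ≤ I := by
    refine le_trans ?_ hI
    have a1 : (Real.log U / 2) ^ q ≤ Real.log U' ^ q := Real.rpow_le_rpow (by linarith) hlogU (by linarith)
    have a2 : (Real.log U / 2) ^ q = (1 / 2) ^ q * Real.log U ^ q := by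
      rw [show Real.log U / 2 = 1 / 2 * Real.log U by ring, Real.mul_rpow (by norm_num) (by linarith)]
    rw [a2] at a1
    calc c1 * (U * Real.log U ^ q) = c0 * (U / 2 * ((1 / 2) ^ q * Real.log U ^ q)) := by rw [hc1]; ring
      _ ≤ c0 * (U' * Real.log U' ^ q) := by
          apply mul_le_mul_of_nonneg_left _ hc0.le
          exact mul_le_mul hUU a1 (by positivity) hU'0.le
  have hIU : 2 * C * U ≤ I := by
    refine le_trans ?_ hIge
    have a1 : Real.log U ≤ Real.log U ^ q := by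
      calc Real.log U = Real.log U ^ (1 : ℝ) := (Real.rpow_one _).symm
        _ ≤ Real.log U ^ q := Real.rpow_le_rpow_of_exponent_le hlogU1 hq1
    have a2 : 2 * (C / c1) ≤ Real.log U ^ q := by linarith
    have a3 : c1 * (2 * (C / c1)) = 2 * C := by field_simp
    have a4 : 2 * C ≤ c1 * Real.log U ^ q := by
      rw [← a3]
      exact mul_le_mul_of_nonneg_left a2 hc10.le
    have a5 := mul_le_mul_of_nonneg_left a4 (by linarith : 0 ≤ U)
    calc 2 * C * U = U * (2 * C) := by ring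
      _ ≤ U * (c1 * Real.log U ^ q) := a5
      _ = c1 * (U * Real.log U ^ q) := by ring
  have hmain := hfin T γ T' (T' + U') hTT1 (by linarith) (by linarith) (by linarith)
  rw [← hL, ← hIdef] at hmain
  have e3 : T' - 2 * L = T := by rw [hT']; ring
  have e4 : T' + U' + 2 * L = T + U := by rw [hT', hU']; ring
  have e5 : T' + U' - T' = U' := by ring
  rw [e3, e4, e5] at hmain
  obtain ⟨D, hD⟩ : ∃ D : ℝ, D = DD p γ T (T + U) := ⟨_, rfl⟩
  rw [← hD] at hmain ⊢
  have e6 : U' * L + 1 ≤ U * L := by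
    rw [hU']
    nlinarith
  have e7 : L * I ≤ C * D + C * (U * L) := by
    have := mul_le_mul_of_nonneg_left e6 hC.le
    linarith
  have e8 : C * (U * L) ≤ L * I / 2 := by
    have := mul_le_mul_of_nonneg_left hIU hL0.le
    linarith
  have e9 : 1 / (2 * C) * (L * I) ≤ D := by
    rw [div_mul_eq_mul_div, one_mul, div_le_iff₀ (by positivity)]
    linarith
  have hI0 : 0 ≤ I := le_trans (by positivity) hIU
  constructor
  · refine le_trans ?_ e9
    exact mul_le_mul_of_nonneg_right (min_le_left _ _) (by positivity)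
  · refine le_trans ?_ e9
    calc min (1 / (2 * C)) (c1 / (2 * C)) * (U * L * Real.log U ^ q)
        ≤ c1 / (2 * C) * (U * L * Real.log U ^ q) :=
          mul_le_mul_of_nonneg_right (min_le_right _ _) (by positivity)
      _ = 1 / (2 * C) * (L * (c1 * (U * Real.log U ^ q))) := by ring
      _ ≤ 1 / (2 * C) * (L * I) := by
          apply mul_le_mul_of_nonneg_left _ (by positivity)
          exact mul_le_mul_of_nonneg_left hIge hL0.le

/-! ### dyadic windows -/

lemma dyadic {G F : ℝ → ℝ} {T₁ C M : ℝ} (hT₁ : 0 < T₁) (hF : ∀ x y : ℝ, T₁ ≤ x → x ≤ y → F x ≤ F y)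
    (hF1 : ∀ T : ℝ, T₁ ≤ T → 1 ≤ F T) (hC : 0 ≤ C) (hM : 0 ≤ M)
    (h0 : ∀ T : ℝ, T₁ ≤ T → T ≤ 2 * T₁ → G T ≤ M)
    (h : ∀ T : ℝ, 2 * T₁ ≤ T → G T ≤ G (T / 2) + C * (T * F T)) :
    ∀ T : ℝ, T₁ ≤ T → G T ≤ (2 * C + M / T₁) * (T * F T) := by
  have key : ∀ n : ℕ, ∀ T : ℝ, T₁ ≤ T → T ≤ 2 ^ n * (2 * T₁) → G T ≤ (2 * C + M / T₁) * (T * F T) := by
    intro n
    induction n with
    | zero =>
      intro T h1 h2
      rw [pow_zero, one_mul] at h2
      refine (h0 T h1 h2).trans ?_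
      have h3 := hF1 T h1
      have h4 : M ≤ M / T₁ * (T * F T) := by
        rw [div_mul_eq_mul_div, le_div_iff₀ hT₁]
        apply mul_le_mul_of_nonneg_left _ hM
        nlinarith
      have h5 : 0 ≤ 2 * C * (T * F T) := by
        have : 0 ≤ T * F T := mul_nonneg (by linarith) (by linarith)
        positivity
      rw [add_mul]
      linarith
    | succ n ih =>
      intro T h1 h2
      by_cases h3 : T ≤ 2 * T₁
      · have h2' : T ≤ 2 ^ 0 * (2 * T₁) := by rw [pow_zero, one_mul]; exact h3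
        refine (h0 T h1 h3).trans ?_
        have h3 := hF1 T h1
        have h4 : M ≤ M / T₁ * (T * F T) := by
          rw [div_mul_eq_mul_div, le_div_iff₀ hT₁]
          apply mul_le_mul_of_nonneg_left _ hM
          nlinarith
        have h5 : 0 ≤ 2 * C * (T * F T) := by
          have : 0 ≤ T * F T := mul_nonneg (by linarith) (by linarith)
          positivity
        rw [add_mul]
        linarith
      · rw [not_le] at h3
        have h4 := ih (T / 2) (by linarith) (by rw [pow_succ] at h2; linarith)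
        have h5 := h T h3.le
        have h6 := hF (T / 2) T (by linarith) (by linarith)
        have h7 : 0 ≤ 2 * C + M / T₁ := by positivity
        have h8 : (2 * C + M / T₁) * (T / 2 * F (T / 2)) ≤ (2 * C + M / T₁) * (T / 2 * F T) := by
          apply mul_le_mul_of_nonneg_left _ h7
          exact mul_le_mul_of_nonneg_left h6 (by linarith)
        have h9 : 0 ≤ M / T₁ * (T * F T) := by
          have : 0 ≤ T * F T := mul_nonneg (by linarith) (by linarith [hF1 T h1])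
          positivity
        have h10 : (2 * C + M / T₁) * (T / 2 * F T) = C * (T * F T) + M / T₁ * (T * F T) / 2 := by ring
        rw [add_mul]
        linarith
  intro T hT
  obtain ⟨n, hn⟩ := pow_unbounded_of_one_lt (T / (2 * T₁)) (by norm_num : (1 : ℝ) < 2)
  refine key n T hT ?_
  rw [div_lt_iff₀ (by positivity)] at hn
  exact hn.le

lemma DD_mono (p γ : ℝ) {a b c : ℝ} (hbc : b ≤ c) : DD p γ a b ≤ DD p γ a c := by
  have hnd := a_tau.2.2.2.2.2.2.2.2.2.2.2.2
  refine Finset.sum_le_sum_of_subset_of_nonneg ?_ fun _ _ _ => Real.rpow_nonneg (ZZ_nonneg _) _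
  intro n hn
  rw [hnd] at hn ⊢
  exact ⟨hn.1, hn.2.trans hbc⟩

lemma DD_mono' (p γ : ℝ) {a a' b b' : ℝ} (ha : a' ≤ a) (hb : b ≤ b') : DD p γ a b ≤ DD p γ a' b' := by
  have hnd := a_tau.2.2.2.2.2.2.2.2.2.2.2.2
  refine Finset.sum_le_sum_of_subset_of_nonneg ?_ fun _ _ _ => Real.rpow_nonneg (ZZ_nonneg _) _
  intro n hn
  rw [hnd] at hn ⊢
  exact ⟨ha.trans_lt hn.1, hn.2.trans hb⟩

lemma DD_add (p γ a b c : ℝ) : DD p γ a c ≤ DD p γ a b + DD p γ b c := by
  have hnd := a_tau.2.2.2.2.2.2.2.2.2.2.2.2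
  unfold DD
  rw [← Finset.sum_union_inter]
  have h0 : 0 ≤ ∑ n ∈ nd γ a b ∩ nd γ b c, ZZ (tau (n + γ)) ^ p :=
    Finset.sum_nonneg fun _ _ => Real.rpow_nonneg (ZZ_nonneg _) _
  have h1 : ∑ n ∈ nd γ a c, ZZ (tau (n + γ)) ^ p ≤ ∑ n ∈ nd γ a b ∪ nd γ b c, ZZ (tau (n + γ)) ^ p := by
    refine Finset.sum_le_sum_of_subset_of_nonneg ?_ fun _ _ _ => Real.rpow_nonneg (ZZ_nonneg _) _
    intro n hn
    rw [Finset.mem_union, hnd, hnd]
    rw [hnd] at hn
    by_cases h : tau (n + γ) ≤ b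
    · exact Or.inl ⟨hn.1, h⟩
    · exact Or.inr ⟨not_le.1 h, hn.2⟩
  linarith

/-- **upper bounds for the moments and upper bounds for the sums over one line** -/
theorem eqvL {p A : ℝ} (hp : 1 < p) (hA : 0 ≤ A) (γ : ℝ) :
    (∃ B : ℝ, ∀ᶠ T : ℝ in atTop, (∫ t in (0 : ℝ)..T, ZZ t ^ p) ≤ B * (T * Real.log T ^ A)) ↔
      ∃ B : ℝ, ∀ᶠ T : ℝ in atTop, DD p γ 100 T ≤ B * (T * Real.log T ^ (A + 1)) := by
  have hfc : Continuous fun t => ZZ t ^ p :=
    Pool.Agent.W933.GP.ZZ_cont.rpow_const fun _ => Or.inr (by linarith)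
  have hf0 : ∀ t, 0 ≤ ZZ t ^ p := fun t => Real.rpow_nonneg (norm_nonneg _) _
  have hint : ∀ a b : ℝ, IntervalIntegrable (fun t => ZZ t ^ p) volume a b := fun a b =>
    hfc.intervalIntegrable a b
  have hlog2 : ∀ T : ℝ, 2 ≤ T → Real.log (2 * T) ≤ 2 * Real.log T := by
    intro T hT
    have e : 2 * Real.log T = Real.log (T ^ 2) := by rw [Real.log_pow]; norm_num
    rw [e]
    apply Real.log_le_log (by linarith)
    nlinarith
  have hev0 : ∀ᶠ T : ℝ in atTop, 400 ≤ T ∧ 1 ≤ Real.log T ∧ 32 * Real.log T ≤ T := by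
    have h4 := (isLittleO_log_rpow_rpow_atTop 1 (by norm_num : (0 : ℝ) < 1)).bound
      (show (0 : ℝ) < (32 : ℝ)⁻¹ by positivity)
    filter_upwards [h4, eventually_ge_atTop 400,
      Real.tendsto_log_atTop.eventually_ge_atTop 1] with T hT hT1 k3
    rw [Real.rpow_one, Real.rpow_one, Real.norm_of_nonneg (Real.log_nonneg (by linarith)),
      Real.norm_of_nonneg (by linarith)] at hT
    exact ⟨hT1, k3, by linarith⟩
  constructor
  · rintro ⟨B', hB'⟩
    obtain ⟨B, hBB, hB0⟩ : ∃ B : ℝ, B' ≤ B ∧ 0 ≤ B := ⟨|B'|, le_abs_self _, abs_nonneg _⟩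
    obtain ⟨C, T1, hC, hcmp⟩ := Pool.Agent.W188.MZ.a_cmp p (by linarith)
    obtain ⟨T2, hT2⟩ := eventually_atTop.1 (hB'.and hev0)
    obtain ⟨T₁, hT₁⟩ : ∃ T₁ : ℝ, T₁ = max (max T1 T2) 400 := ⟨_, rfl⟩
    have k1 : T1 ≤ T₁ := by rw [hT₁]; exact (le_max_left _ _).trans (le_max_left _ _)
    have k2 : T2 ≤ T₁ := by rw [hT₁]; exact (le_max_right _ _).trans (le_max_left _ _)
    have k3 : 400 ≤ T₁ := by rw [hT₁]; exact le_max_right _ _
    have hmain := dyadic (G := fun T => DD p γ 100 T) (F := fun T => Real.log T ^ (A + 1)) (T₁ := T₁)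
      (C := C * (B * (2 * 2 ^ A) + 2)) (M := DD p γ 100 (2 * T₁)) (by linarith)
      (fun x y hx hxy => Real.rpow_le_rpow (Real.log_nonneg (by linarith))
        (Real.log_le_log (by linarith) hxy) (by linarith))
      (fun T hT => Real.one_le_rpow (hT2 T (by linarith)).2.2.1 (by linarith))
      (by positivity) (DD_nonneg _ _ _ _) (fun T _ h => DD_mono p γ h) ?_
    · refine ⟨2 * (C * (B * (2 * 2 ^ A) + 2)) + DD p γ 100 (2 * T₁) / T₁, ?_⟩
      filter_upwards [eventually_ge_atTop T₁] with T hT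
      exact hmain T hT
    · intro T hT
      obtain ⟨-, hT400, hL1, h32⟩ := hT2 T (by linarith)
      obtain ⟨hI2, -, -⟩ := hT2 (2 * T) (by linarith)
      have hT0 : 0 < T := by linarith
      obtain ⟨L, hL⟩ : ∃ L : ℝ, L = Real.log T := ⟨_, rfl⟩
      rw [← hL] at hL1 h32
      have h1 := (hcmp T γ (T / 2) T (by linarith) le_rfl (by linarith) (by linarith)).2
      rw [← hL] at h1
      have h2 : (∫ t in (T / 2 - 2 * L)..(T + 2 * L), ZZ t ^ p) ≤ ∫ t in (0 : ℝ)..(2 * T), ZZ t ^ p := by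
        apply intervalIntegral.integral_mono_interval (by linarith) (by linarith) (by linarith)
          (ae_of_all _ hf0) (hint _ _)
      have h3 : (∫ t in (0 : ℝ)..(2 * T), ZZ t ^ p) ≤ B * (2 * T * (2 ^ A * L ^ A)) := by
        refine hI2.trans ?_
        have e1 : Real.log (2 * T) ^ A ≤ 2 ^ A * L ^ A := by
          rw [← Real.mul_rpow (by norm_num) (by linarith), hL]
          exact Real.rpow_le_rpow (Real.log_nonneg (by linarith)) (hlog2 T (by linarith)) hA
        have e0 : 0 ≤ Real.log (2 * T) ^ A := Real.rpow_nonneg (Real.log_nonneg (by linarith)) _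
        have e2 : 2 * T * Real.log (2 * T) ^ A ≤ 2 * T * (2 ^ A * L ^ A) :=
          mul_le_mul_of_nonneg_left e1 (by linarith)
        calc B' * (2 * T * Real.log (2 * T) ^ A) ≤ B * (2 * T * Real.log (2 * T) ^ A) :=
              mul_le_mul_of_nonneg_right hBB (by positivity)
          _ ≤ _ := mul_le_mul_of_nonneg_left e2 hB0
      have h4 : T ^ (-(p / 3)) ≤ 1 := Real.rpow_le_one_of_one_le_of_nonpos (by linarith) (by linarith)
      have h5 : (T - T / 2 + 1) * T ^ (-(p / 3)) ≤ 2 * T := by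
        have := mul_le_mul_of_nonneg_left h4 (by linarith : 0 ≤ T - T / 2 + 1)
        linarith
      have hLA : L ^ (A + 1) = L ^ A * L := by rw [Real.rpow_add (by linarith), Real.rpow_one]
      have hLA1 : 1 ≤ L ^ (A + 1) := Real.one_le_rpow hL1 (by linarith)
      have h6 : DD p γ (T / 2) T ≤ C * (B * (2 * 2 ^ A) + 2) * (T * L ^ (A + 1)) := by
        refine h1.trans ?_
        rw [mul_assoc]
        apply mul_le_mul_of_nonneg_left _ hC.le
        have e1 : L * (∫ t in (T / 2 - 2 * L)..(T + 2 * L), ZZ t ^ p) ≤ B * (2 * 2 ^ A) * (T * L ^ (A + 1)) := by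
          calc L * (∫ t in (T / 2 - 2 * L)..(T + 2 * L), ZZ t ^ p) ≤ L * (B * (2 * T * (2 ^ A * L ^ A))) :=
                mul_le_mul_of_nonneg_left (h2.trans h3) (by linarith)
            _ = B * (2 * 2 ^ A) * (T * L ^ (A + 1)) := by rw [hLA]; ring
        have e2 : 2 * T ≤ 2 * (T * L ^ (A + 1)) := by nlinarith
        linarith
      have h7 := DD_add p γ 100 (T / 2) T
      show DD p γ 100 T ≤ DD p γ 100 (T / 2) + _ * (T * Real.log T ^ (A + 1))
      rw [← hL]
      linarith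
  · rintro ⟨B', hB'⟩
    obtain ⟨B, hBB, hB0⟩ : ∃ B : ℝ, B' ≤ B ∧ 0 ≤ B := ⟨|B'|, le_abs_self _, abs_nonneg _⟩
    obtain ⟨C, T1, hC, hcmp⟩ := finL hp
    obtain ⟨T2, hT2⟩ := eventually_atTop.1 (hB'.and hev0)
    obtain ⟨T₁, hT₁⟩ : ∃ T₁ : ℝ, T₁ = max (max T1 T2) 400 := ⟨_, rfl⟩
    have k1 : T1 ≤ T₁ := by rw [hT₁]; exact (le_max_left _ _).trans (le_max_left _ _)
    have k2 : T2 ≤ T₁ := by rw [hT₁]; exact (le_max_right _ _).trans (le_max_left _ _)
    have k3 : 400 ≤ T₁ := by rw [hT₁]; exact le_max_right _ _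
    have hmono : ∀ x y : ℝ, 0 ≤ x → x ≤ y → (∫ t in (0 : ℝ)..x, ZZ t ^ p) ≤ ∫ t in (0 : ℝ)..y, ZZ t ^ p := by
      intro x y hx hxy
      apply intervalIntegral.integral_mono_interval le_rfl hx hxy (ae_of_all _ hf0) (hint _ _)
    have hmain := dyadic (G := fun T => ∫ t in (0 : ℝ)..T, ZZ t ^ p) (F := fun T => Real.log T ^ A) (T₁ := T₁)
      (C := 2 * C * (B * (2 * 2 ^ (A + 1)) + 2)) (M := ∫ t in (0 : ℝ)..(2 * T₁), ZZ t ^ p) (by linarith)
      (fun x y hx hxy => Real.rpow_le_rpow (Real.log_nonneg (by linarith))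
        (Real.log_le_log (by linarith) hxy) (by linarith))
      (fun T hT => Real.one_le_rpow (hT2 T (by linarith)).2.2.1 hA)
      (by positivity) (intervalIntegral.integral_nonneg (by linarith) fun t _ => hf0 t)
      (fun T h1 h => hmono T _ (by linarith) h) ?_
    · refine ⟨2 * (2 * C * (B * (2 * 2 ^ (A + 1)) + 2)) + (∫ t in (0 : ℝ)..(2 * T₁), ZZ t ^ p) / T₁, ?_⟩
      filter_upwards [eventually_ge_atTop T₁] with T hT
      exact hmain T hT
    · intro T hT
      obtain ⟨-, hT400, hL1, h32⟩ := hT2 T (by linarith)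
      obtain ⟨hI2, -, -⟩ := hT2 (2 * T) (by linarith)
      have hT0 : 0 < T := by linarith
      obtain ⟨L, hL⟩ : ∃ L : ℝ, L = Real.log T := ⟨_, rfl⟩
      rw [← hL] at hL1 h32
      have h1 := hcmp (T / 2) γ (T / 2) T (by linarith) le_rfl (by linarith) (by linarith)
      obtain ⟨l, hl⟩ : ∃ l : ℝ, l = Real.log (T / 2) := ⟨_, rfl⟩
      rw [← hl] at h1
      have hlL : l ≤ L := by
        rw [hl, hL]
        exact Real.log_le_log (by linarith) (by linarith)
      have hLl : L ≤ 2 * l := by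
        have := hlog2 (T / 2) (by linarith)
        rw [show 2 * (T / 2) = T by ring, ← hL, ← hl] at this
        exact this
      have h2 : DD p γ (T / 2 - 2 * l) (T + 2 * l) ≤ DD p γ 100 (2 * T) :=
        DD_mono' p γ (by linarith) (by linarith)
      have hLA : L ^ (A + 1) = L ^ A * L := by rw [Real.rpow_add (by linarith), Real.rpow_one]
      have hLA1 : 1 ≤ L ^ A := Real.one_le_rpow hL1 hA
      have h3 : DD p γ 100 (2 * T) ≤ B * (2 * T * (2 ^ (A + 1) * L ^ (A + 1))) := by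
        refine hI2.trans ?_
        have e1 : Real.log (2 * T) ^ (A + 1) ≤ 2 ^ (A + 1) * L ^ (A + 1) := by
          rw [← Real.mul_rpow (by norm_num) (by linarith), hL]
          exact Real.rpow_le_rpow (Real.log_nonneg (by linarith)) (hlog2 T (by linarith)) (by linarith)
        have e0 : 0 ≤ Real.log (2 * T) ^ (A + 1) := Real.rpow_nonneg (Real.log_nonneg (by linarith)) _
        have e2 : 2 * T * Real.log (2 * T) ^ (A + 1) ≤ 2 * T * (2 ^ (A + 1) * L ^ (A + 1)) :=
          mul_le_mul_of_nonneg_left e1 (by linarith)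
        calc B' * (2 * T * Real.log (2 * T) ^ (A + 1)) ≤ B * (2 * T * Real.log (2 * T) ^ (A + 1)) :=
              mul_le_mul_of_nonneg_right hBB (by positivity)
          _ ≤ _ := mul_le_mul_of_nonneg_left e2 hB0
      have h5 : (T - T / 2) * l + 1 ≤ 2 * (T * L) := by
        have e1 : (T - T / 2) * l ≤ T * L := by
          apply mul_le_mul (by linarith) hlL (by linarith) (by linarith)
        have e2 : 1 ≤ T * L := by nlinarith
        linarith
      have h6 : (∫ t in (T / 2)..T, ZZ t ^ p) ≤ 2 * C * (B * (2 * 2 ^ (A + 1)) + 2) * (T * L ^ A) := by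
        obtain ⟨J, hJ⟩ : ∃ J : ℝ, J = ∫ t in (T / 2)..T, ZZ t ^ p := ⟨_, rfl⟩
        have hJ0 : 0 ≤ J := by
          rw [hJ]
          exact intervalIntegral.integral_nonneg (by linarith) fun t _ => hf0 t
        rw [← hJ] at h1 ⊢
        have e1 : L * J ≤ 2 * (l * J) := by nlinarith
        have e2 : C * (DD p γ (T / 2 - 2 * l) (T + 2 * l) + ((T - T / 2) * l + 1)) ≤
            C * (B * (2 * T * (2 ^ (A + 1) * L ^ (A + 1))) + 2 * (T * L)) :=
          mul_le_mul_of_nonneg_left (by linarith) hC.le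
        have e3 : L * J ≤ L * (2 * C * (B * (2 * 2 ^ (A + 1)) + 2) * (T * L ^ A)) := by
          have e4 : C * (2 * (T * L)) ≤ C * (2 * (T * L * L ^ A)) := by
            apply mul_le_mul_of_nonneg_left _ hC.le
            have : 0 ≤ T * L := by positivity
            nlinarith
          calc L * J ≤ 2 * (C * (B * (2 * T * (2 ^ (A + 1) * L ^ (A + 1))) + 2 * (T * L))) := by linarith
            _ ≤ 2 * (C * (B * (2 * T * (2 ^ (A + 1) * L ^ (A + 1))) + 2 * (T * L * L ^ A))) := by linarith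
            _ = _ := by rw [hLA]; ring
        exact le_of_mul_le_mul_left e3 (by linarith)
      have h7 : (∫ t in (0 : ℝ)..T, ZZ t ^ p) =
          (∫ t in (0 : ℝ)..(T / 2), ZZ t ^ p) + ∫ t in (T / 2)..T, ZZ t ^ p :=
        (intervalIntegral.integral_add_adjacent_intervals (hint _ _) (hint _ _)).symm
      show (∫ t in (0 : ℝ)..T, ZZ t ^ p) ≤ (∫ t in (0 : ℝ)..(T / 2), ZZ t ^ p) + _ * (T * Real.log T ^ A)
      rw [← hL, h7]
      linarith

end Pool.Agent.N397.OL
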